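import Mathlib
import Pool.Agent.Q263.HD.Seq

/-! # Normal numbers abnormal along progressions can form a set of Hausdorff dimension zero -/

set_option autoImplicit false

open Finset Filter Topology MeasureTheory

namespace Pool.Agent.Results.MP_ab119d_nt.DimensionZero

/-- `(E_n)_{n ≥ 1}` (together with `E_0 = ⌊x⌋`) is the `Q`-Cantor series expansion of `x`:
`E_n ∈ {0,…,q_n - 1}`, `E_n ≠ q_n - 1` infinitely often, and
`x = ⌊x⌋ + ∑_{n ≥ 1} E_n / (q_1 ⋯ q_n)` -/
def IsExpansion (q : ℕ → ℕ) (x : ℝ) (E : ℕ → ℕ) : Prop :=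
  (∀ n, 1 ≤ n → E n < q n) ∧ (∀ N, ∃ n, N ≤ n ∧ E n ≠ q n - 1) ∧
    HasSum (fun n : ℕ => (E (n + 1) : ℝ) / ∏ i ∈ Icc 1 (n + 1), (q i : ℝ)) (x - ⌊x⌋)

/-- `Q_n^{(k)} = ∑_{j=1}^n 1/(q_j q_{j+1} ⋯ q_{j+k-1})` -/
noncomputable def Qk (q : ℕ → ℕ) (k n : ℕ) : ℝ :=
  ∑ j ∈ Icc 1 n, (∏ t ∈ range k, (q (j + t) : ℝ))⁻¹

/-- `Q_{n,m,r}^{(k)}`: the same sum over the `1 ≤ j ≤ n` with `j ≡ r (mod m)` -/
noncomputable def Qap (q : ℕ → ℕ) (k m r n : ℕ) : ℝ :=
  ∑ j ∈ (Icc 1 n).filter (fun j => j % m = r), (∏ t ∈ range k, (q (j + t) : ℝ))⁻¹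

/-- the number of positions `1 ≤ i ≤ n` at which `B` occurs -/
def count {k : ℕ} (E : ℕ → ℕ) (B : Fin k → ℕ) (n : ℕ) : ℕ :=
  #((Icc 1 n).filter fun i => ∀ t : Fin k, E (i + t) = B t)

/-- the number of positions `1 ≤ i ≤ n`, `i ≡ r (mod m)`, at which `B` occurs -/
def countAP {k : ℕ} (E : ℕ → ℕ) (B : Fin k → ℕ) (m r n : ℕ) : ℕ :=
  #((Icc 1 n).filter fun i => (∀ t : Fin k, E (i + t) = B t) ∧ i % m = r)

/-- fully divergent of type I -/
def FullyDivergentI (q : ℕ → ℕ) : Prop :=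
  ∀ k m r, 1 ≤ k → 1 ≤ m → r < m → Tendsto (Qap q k m r) atTop atTop

/-- normality of order `k` -/
def NormalOfOrder (q : ℕ → ℕ) (E : ℕ → ℕ) (k : ℕ) : Prop :=
  ∀ B : Fin k → ℕ, Tendsto (fun n => (count E B n : ℝ) / Qk q k n) atTop (𝓝 1)

/-- membership in `N^{AP}_k(Q;m,r)` -/
def APNormal (q : ℕ → ℕ) (E : ℕ → ℕ) (k m r : ℕ) : Prop :=
  ∀ B : Fin k → ℕ, Tendsto (fun n => (countAP E B m r n : ℝ) / Qap q k m r n) atTop (𝓝 1)

/-- the set `N(Q) \ ⋃_{k ≥ 2} ⋃_{0 ≤ r ≤ k-1} N^{AP}_k(Q;k,r)` -/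
def ExceptionalSet (q : ℕ → ℕ) : Set ℝ :=
  {x | ∃ E : ℕ → ℕ, IsExpansion q x E ∧ (∀ k, 1 ≤ k → NormalOfOrder q E k) ∧
    ∀ k, 2 ≤ k → ∀ r, r < k → ¬ APNormal q E k k r}

open Q263.HD

lemma q_pos (n : ℕ) : (0 : ℝ) < q n := by
  have := two_le_q n
  exact_mod_cast (by omega : 0 < q n)

lemma Pr_pos' (n : ℕ) : (0 : ℝ) < Pr n := by
  rw [Pr_eq]
  exact Finset.prod_pos fun i _ => q_pos i

lemma Pr_succ' (n : ℕ) : (Pr (n + 1) : ℝ) = Pr n * q (n + 1) := by
  rw [Pr_succ]
  push_cast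
  rfl

/-- a digit determines an interval containing `x` -/
lemma digit_interval {x : ℝ} {E : ℕ → ℕ} (h : IsExpansion q x E) (n : ℕ) :
    ∃ c : ℤ, (c : ℝ) * q (n + 1) + E (n + 1) ≤ x * Pr (n + 1) ∧
      x * Pr (n + 1) ≤ c * q (n + 1) + E (n + 1) + 1 := by
  obtain ⟨hlt, -, hsum⟩ := h
  set f : ℕ → ℝ := fun n => (E (n + 1) : ℝ) / Pr (n + 1) with hf
  have hsum' : HasSum f (x - ⌊x⌋) := by
    have e : (fun n : ℕ => (E (n + 1) : ℝ) / ∏ i ∈ Icc 1 (n + 1), (q i : ℝ)) = f := by
      funext n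
      rw [hf, ← Pr_eq]
    rwa [e] at hsum
  have hf0 : ∀ n, 0 ≤ f n := fun n => div_nonneg (by positivity) (Pr_pos' _).le
  have hfle : ∀ n, f n ≤ 1 / Pr n - 1 / Pr (n + 1) := by
    intro n
    have h3 : (E (n + 1) : ℝ) ≤ q (n + 1) - 1 := by
      have := hlt (n + 1) (by omega)
      have : E (n + 1) + 1 ≤ q (n + 1) := this
      have : (E (n + 1) : ℝ) + 1 ≤ q (n + 1) := by exact_mod_cast this
      linarith
    simp only [hf]
    have e : 1 / (Pr n : ℝ) - 1 / Pr (n + 1) = ((q (n + 1) : ℝ) - 1) / Pr (n + 1) := by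
      rw [Pr_succ']
      have := Pr_pos' n
      have := q_pos (n + 1)
      field_simp
    rw [e]
    exact div_le_div_of_nonneg_right h3 (Pr_pos' _).le
  have hpart : ∀ m n, m ≤ n → ∑ i ∈ Ico m n, f i ≤ 1 / Pr m - 1 / Pr n := by
    intro m n hmn
    induction n, hmn using Nat.le_induction with
    | base => simp
    | succ n hmn ih =>
      rw [Finset.sum_Ico_succ_top hmn]
      have := hfle n
      linarith
  -- lower and upper bounds
  have hlow : ∀ n, ∑ i ∈ range n, f i ≤ x - ⌊x⌋ := fun n =>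
    sum_le_hasSum _ (fun i _ => hf0 i) hsum'
  have hup : ∀ m, x - ⌊x⌋ ≤ ∑ i ∈ range m, f i + 1 / Pr m := by
    intro m
    refine le_of_tendsto hsum'.tendsto_sum_nat ?_
    filter_upwards [eventually_ge_atTop m] with n hn
    rw [← Finset.sum_range_add_sum_Ico f hn]
    have h1 := hpart m n hn
    have h2 : (0 : ℝ) < 1 / Pr n := by have := Pr_pos' n; positivity
    linarith
  -- the integers
  set c : ℕ → ℤ := fun n => Nat.rec ⌊x⌋ (fun n c => c * q (n + 1) + E (n + 1)) n with hc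
  have hcs : ∀ n, c (n + 1) = c n * q (n + 1) + E (n + 1) := fun n => rfl
  have hcr : ∀ n, (c n : ℝ) = (⌊x⌋ + ∑ i ∈ range n, f i) * Pr n := by
    intro n
    induction n with
    | zero => simp [hc, Pr]
    | succ n ih =>
      rw [hcs, Finset.sum_range_succ]
      push_cast
      rw [ih]
      have h1 : f n * Pr (n + 1) = E (n + 1) := by
        simp only [hf]
        have := Pr_pos' (n + 1)
        field_simp
      have h2 : ((⌊x⌋ : ℝ) + (∑ i ∈ range n, f i + f n)) * Pr (n + 1) =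
          (⌊x⌋ + ∑ i ∈ range n, f i) * Pr (n + 1) + f n * Pr (n + 1) := by ring
      rw [h2, h1, Pr_succ']
      ring
  refine ⟨c n, ?_, ?_⟩
  · have h1 := hcr (n + 1)
    rw [hcs] at h1
    push_cast at h1
    rw [h1]
    apply mul_le_mul_of_nonneg_right _ (Pr_pos' _).le
    linarith [hlow (n + 1)]
  · have h1 := hcr (n + 1)
    rw [hcs] at h1
    push_cast at h1
    rw [h1]
    have h2 : x ≤ ⌊x⌋ + ∑ i ∈ range (n + 1), f i + 1 / Pr (n + 1) := by linarith [hup (n + 1)]
    have hP := Pr_pos' (n + 1)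
    calc x * Pr (n + 1) ≤ (⌊x⌋ + ∑ i ∈ range (n + 1), f i + 1 / Pr (n + 1)) * Pr (n + 1) := by
          gcongr
      _ = _ := by field_simp

/-- outside the limsup set a given digit occurs only finitely often at huge positions -/
lemma not_digit {x : ℝ} {E : ℕ → ℕ} (h : IsExpansion q x E) (hx : x ∉ Z q Pr hug) (b : ℕ) :
    ∃ N : ℕ, ∀ n, N ≤ n → hug (n + 1) → E (n + 1) ≠ b := by
  have h1 : ¬ ∃ b : ℕ, ∀ N : ℕ, ∃ n, N ≤ n ∧ hug (n + 1) ∧ ∃ c : ℤ,
      (c : ℝ) * q (n + 1) + b ≤ x * Pr (n + 1) ∧ x * Pr (n + 1) ≤ c * q (n + 1) + b + 1 := hx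
  push Not at h1
  obtain ⟨N, hN⟩ := h1 b
  refine ⟨N, fun n hn hh he => ?_⟩
  obtain ⟨c, hc1, hc2⟩ := digit_interval h n
  rw [he] at hc1 hc2
  have := hN n hn hh c hc1
  linarith

/-- few occurrences at even positions -/
lemma count_even {x : ℝ} {E : ℕ → ℕ} (h : IsExpansion q x E) (hx : x ∉ Z q Pr hug)
    (B : Fin 2 → ℕ) : ∃ C : ℝ, ∀ n, (countAP E B 2 0 n : ℝ) ≤ C * (rc n + 1) := by
  obtain ⟨N₀, hN₀⟩ := not_digit h hx (B 0)
  obtain ⟨N₁, hN₁⟩ := not_digit h hx (B 1)
  refine ⟨(N₀ + N₁ + 4 : ℕ), fun n => ?_⟩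
  have hsub : (Icc 1 n).filter (fun i => (∀ t : Fin 2, E (i + t) = B t) ∧ i % 2 = 0) ⊆
      range (N₀ + N₁ + 1) ∪ (((range (n + 1)).filter run).image (· + 1) ∪
        (range (n + 1)).filter run) := by
    intro p hp
    rw [Finset.mem_filter, Finset.mem_Icc] at hp
    obtain ⟨⟨hp1, hp2⟩, hocc, hpe⟩ := hp
    rw [Finset.mem_union, Finset.mem_union, Finset.mem_range, Finset.mem_image]
    obtain ⟨i, rfl⟩ : ∃ i, p = i + 1 := ⟨p - 1, by omega⟩
    by_cases h3 : i % 4 = 3
    · by_cases hr : run i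
      · right; left
        exact ⟨i, by rw [Finset.mem_filter, Finset.mem_range]; exact ⟨by omega, hr⟩, rfl⟩
      · left
        have hh : hug (i + 1) := ⟨by rwa [add_tsub_cancel_right], by
          rw [add_tsub_cancel_right]; omega⟩
        have h4 : E (i + 1) = B 0 := by simpa using hocc 0
        by_contra hcon
        exact hN₀ i (by omega) hh h4
    · have h3' : i % 4 = 1 := by omega
      by_cases hr : run (i + 1)
      · right; right
        rw [Finset.mem_filter, Finset.mem_range]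
        exact ⟨by omega, hr⟩
      · left
        have hh : hug (i + 1 + 1) := ⟨by rwa [add_tsub_cancel_right], by
          rw [add_tsub_cancel_right]; omega⟩
        have h4 : E (i + 1 + 1) = B 1 := by simpa using hocc 1
        by_contra hcon
        exact hN₁ (i + 1) (by omega) hh h4
  have h1 := Finset.card_le_card hsub
  have h2 := h1.trans ((Finset.card_union_le _ _).trans
    (Nat.add_le_add_left (Finset.card_union_le _ _) _))
  have h3 : #(((range (n + 1)).filter run).image (· + 1)) ≤ rc n := Finset.card_image_le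
  have h4 : #((range (n + 1)).filter run) = rc n := rfl
  rw [Finset.card_range, h4] at h2
  have h5 : countAP E B 2 0 n ≤ N₀ + N₁ + 1 + (rc n + rc n) := by
    unfold countAP
    omega
  have h6 : countAP E B 2 0 n ≤ (N₀ + N₁ + 4) * (rc n + 1) := by
    calc countAP E B 2 0 n ≤ N₀ + N₁ + 1 + (rc n + rc n) := h5
      _ ≤ (N₀ + N₁ + 4) * (rc n + 1) := by nlinarith
  exact_mod_cast h6

/-- small weight at even positions -/
lemma weight_even (n : ℕ) : Qap q 2 2 0 n ≤ 2 * (rc n + 1) := by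
  have hterm : ∀ p ∈ (Icc 1 n).filter (fun j => j % 2 = 0),
      (∏ t ∈ range 2, (q (p + t) : ℝ))⁻¹ ≤ (1 / (p : ℝ) - 1 / (p + 1 : ℕ)) +
        ((if run (p - 1) then 1 else 0) + (if run p then 1 else 0)) := by
    intro p hp
    rw [Finset.mem_filter, Finset.mem_Icc] at hp
    obtain ⟨⟨hp1, hp2⟩, hpe⟩ := hp
    obtain ⟨i, rfl⟩ : ∃ i, p = i + 1 := ⟨p - 1, by omega⟩
    rw [add_tsub_cancel_right, Finset.prod_range_succ, Finset.prod_range_one, add_zero]
    have hi0 : (0 : ℝ) ≤ i := by positivity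
    have hq1 : (1 : ℝ) ≤ q (i + 1) := by
      have := two_le_q (i + 1)
      exact_mod_cast (by omega : 1 ≤ q (i + 1))
    have hq2 : (1 : ℝ) ≤ q (i + 1 + 1) := by
      have := two_le_q (i + 1 + 1)
      exact_mod_cast (by omega : 1 ≤ q (i + 1 + 1))
    have e : 1 / ((i + 1 : ℕ) : ℝ) - 1 / (i + 1 + 1 : ℕ) =
        (((i : ℝ) + 1) * (i + 2))⁻¹ := by
      push_cast
      have : (i : ℝ) + 1 ≠ 0 := by positivity
      have : (i : ℝ) + 1 + 1 ≠ 0 := by positivity
      have : (i : ℝ) + 2 ≠ 0 := by positivity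
      field_simp
      ring
    have hpos : 0 ≤ (((i : ℝ) + 1) * (i + 2))⁻¹ := by positivity
    rw [e]
    have hone : ((q (i + 1) : ℝ) * q (i + 1 + 1))⁻¹ ≤ 1 := by
      apply inv_le_one_of_one_le₀
      nlinarith
    by_cases hr1 : run i
    · rw [if_pos hr1]
      split_ifs <;> linarith
    · by_cases hr2 : run (i + 1)
      · rw [if_neg hr1, if_pos hr2]
        linarith
      · rw [if_neg hr1, if_neg hr2, add_zero, add_zero]
        apply inv_anti₀ (by positivity)
        by_cases h3 : i % 4 = 3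
        · have hh : hug (i + 1) := ⟨by rwa [add_tsub_cancel_right], by
            rw [add_tsub_cancel_right]; omega⟩
          have h4 : (i + 1) * (i + 2) ≤ q (i + 1) := by
            calc (i + 1) * (i + 2) ≤ (Pr i + i + 2) * (Pr i + i + 2) :=
                  Nat.mul_le_mul (by omega) (by omega)
              _ = (Pr i + i + 2) ^ 2 := by ring
              _ ≤ (Pr i + i + 2) ^ (i + 2) := Nat.pow_le_pow_right (by omega) (by omega)
              _ ≤ _ := q_big hh
          have h5 : ((i : ℝ) + 1) * (i + 2) ≤ q (i + 1) := by exact_mod_cast h4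
          calc ((i : ℝ) + 1) * (i + 2) ≤ q (i + 1) * 1 := by linarith
            _ ≤ _ := by gcongr
        · have hh : hug (i + 1 + 1) := ⟨by rwa [add_tsub_cancel_right], by
            rw [add_tsub_cancel_right]; omega⟩
          have h4 : (i + 1) * (i + 2) ≤ q (i + 1 + 1) := by
            calc (i + 1) * (i + 2) ≤ (Pr (i + 1) + (i + 1) + 2) * (Pr (i + 1) + (i + 1) + 2) :=
                  Nat.mul_le_mul (by omega) (by omega)
              _ = (Pr (i + 1) + (i + 1) + 2) ^ 2 := by ring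
              _ ≤ (Pr (i + 1) + (i + 1) + 2) ^ (i + 1 + 2) :=
                Nat.pow_le_pow_right (by omega) (by omega)
              _ ≤ _ := q_big hh
          have h5 : ((i : ℝ) + 1) * (i + 2) ≤ q (i + 1 + 1) := by exact_mod_cast h4
          calc ((i : ℝ) + 1) * (i + 2) ≤ 1 * q (i + 1 + 1) := by linarith
            _ ≤ _ := by gcongr
  have htel : ∀ n : ℕ, ∑ p ∈ Icc 1 n, (1 / (p : ℝ) - 1 / (p + 1 : ℕ)) = 1 - 1 / (n + 1 : ℕ) := by
    intro n
    induction n with
    | zero => simp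
    | succ n ih =>
      rw [Finset.sum_Icc_succ_top (by omega), ih]
      ring
  have hrun1 : ∑ p ∈ Icc 1 n, (if run (p - 1) then (1 : ℝ) else 0) ≤ rc n := by
    rw [Finset.sum_boole]
    have h1 : #((Icc 1 n).filter fun p => run (p - 1)) ≤ rc n := by
      unfold rc
      apply Finset.card_le_card_of_injOn (fun p => p - 1)
      · intro p hp
        rw [Finset.mem_coe, Finset.mem_filter, Finset.mem_Icc] at hp
        rw [Finset.mem_coe, Finset.mem_filter, Finset.mem_range]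
        refine ⟨?_, hp.2⟩
        show p - 1 < n + 1
        omega
      · intro p hp p' hp' he
        rw [Finset.mem_coe, Finset.mem_filter, Finset.mem_Icc] at hp hp'
        simp only at he
        omega
    exact_mod_cast h1
  have hrun2 : ∑ p ∈ Icc 1 n, (if run p then (1 : ℝ) else 0) ≤ rc n := by
    rw [Finset.sum_boole]
    have h1 : #((Icc 1 n).filter run) ≤ rc n := by
      unfold rc
      apply Finset.card_le_card
      apply Finset.filter_subset_filter
      intro p hp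
      rw [Finset.mem_Icc] at hp
      rw [Finset.mem_range]
      omega
    exact_mod_cast h1
  calc Qap q 2 2 0 n ≤ ∑ p ∈ (Icc 1 n).filter (fun j => j % 2 = 0),
        ((1 / (p : ℝ) - 1 / (p + 1 : ℕ)) +
          ((if run (p - 1) then 1 else 0) + (if run p then 1 else 0))) :=
        Finset.sum_le_sum hterm
    _ ≤ ∑ p ∈ Icc 1 n, ((1 / (p : ℝ) - 1 / (p + 1 : ℕ)) +
          ((if run (p - 1) then 1 else 0) + (if run p then 1 else 0))) := by
        apply Finset.sum_le_sum_of_subset_of_nonneg (Finset.filter_subset _ _)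
        intro p hp _
        rw [Finset.mem_Icc] at hp
        have h1 : (0 : ℝ) < p := by exact_mod_cast hp.1
        have h2 : 1 / ((p + 1 : ℕ) : ℝ) ≤ 1 / p := by
          apply one_div_le_one_div_of_le h1
          push_cast
          linarith
        have h3 : (0 : ℝ) ≤ if run (p - 1) then 1 else 0 := by split_ifs <;> norm_num
        have h4 : (0 : ℝ) ≤ if run p then 1 else 0 := by split_ifs <;> norm_num
        linarith
    _ = (1 - 1 / (n + 1 : ℕ)) + (∑ p ∈ Icc 1 n, (if run (p - 1) then (1 : ℝ) else 0) +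
          ∑ p ∈ Icc 1 n, (if run p then (1 : ℝ) else 0)) := by
        rw [Finset.sum_add_distrib, Finset.sum_add_distrib, htel]
    _ ≤ 2 * (rc n + 1) := by
        have : (0 : ℝ) ≤ 1 / (n + 1 : ℕ) := by positivity
        linarith

/-- splitting into even and odd positions -/
lemma count_split (E : ℕ → ℕ) (B : Fin 2 → ℕ) (n : ℕ) :
    (count E B n : ℝ) = countAP E B 2 0 n + countAP E B 2 1 n := by
  have h : count E B n = countAP E B 2 0 n + countAP E B 2 1 n := by
    unfold count countAP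
    rw [← Finset.card_union_of_disjoint]
    · congr 1
      ext i
      simp only [Finset.mem_filter, Finset.mem_union]
      constructor
      · intro h
        rcases Nat.mod_two_eq_zero_or_one i with h0 | h0
        · exact Or.inl ⟨h.1, h.2, h0⟩
        · exact Or.inr ⟨h.1, h.2, h0⟩
      · rintro (h | h)
        · exact ⟨h.1, h.2.1⟩
        · exact ⟨h.1, h.2.1⟩
    · rw [Finset.disjoint_filter]
      intro i _ h h'
      omega
  exact_mod_cast h

lemma weight_split (n : ℕ) : Qk q 2 n = Qap q 2 2 0 n + Qap q 2 2 1 n := by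
  unfold Qk Qap
  rw [← Finset.sum_union]
  · congr 1
    ext i
    simp only [Finset.mem_filter, Finset.mem_union]
    constructor
    · intro h
      rcases Nat.mod_two_eq_zero_or_one i with h0 | h0
      · exact Or.inl ⟨h, h0⟩
      · exact Or.inr ⟨h, h0⟩
    · rintro (h | h)
      · exact h.1
      · exact h.1
  · rw [Finset.disjoint_filter]
    intro i _ h h'
    omega

/-- outside the limsup set, normality of order two implies normality of order two along the
odd positions -/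
lemma apNormal {x : ℝ} {E : ℕ → ℕ} (h : IsExpansion q x E) (hx : x ∉ Z q Pr hug)
    (hn : NormalOfOrder q E 2) : APNormal q E 2 2 1 := by
  intro B
  obtain ⟨C, hC⟩ := count_even h hx B
  have h1 : Tendsto (fun n => (countAP E B 2 0 n : ℝ) / Q263.CS.Qs q 2 n) atTop (𝓝 0) :=
    negligible (fun n => by positivity) hC
  have h2 : Tendsto (fun n => Qap q 2 2 0 n / Q263.CS.Qs q 2 n) atTop (𝓝 0) :=
    negligible (fun n => Finset.sum_nonneg fun _ _ => by positivity) weight_even
  have h3 : Tendsto (fun n => (count E B n : ℝ) / Q263.CS.Qs q 2 n) atTop (𝓝 1) := hn B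
  have h4 : Tendsto (fun n => ((count E B n : ℝ) / Q263.CS.Qs q 2 n -
      (countAP E B 2 0 n : ℝ) / Q263.CS.Qs q 2 n) / (1 - Qap q 2 2 0 n / Q263.CS.Qs q 2 n))
      atTop (𝓝 ((1 - 0) / (1 - 0))) :=
    (h3.sub h1).div (tendsto_const_nhds.sub h2) (by norm_num)
  rw [sub_zero, div_one] at h4
  refine h4.congr' ?_
  filter_upwards [tendsto_Qs.eventually_gt_atTop 0] with n hn0
  have e1 : (countAP E B 2 1 n : ℝ) = count E B n - countAP E B 2 0 n := by
    rw [count_split]; ring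
  have e2 : Qap q 2 2 1 n = Q263.CS.Qs q 2 n - Qap q 2 2 0 n := by
    have h5 : Q263.CS.Qs q 2 n = Qk q 2 n := rfl
    rw [h5, weight_split]; ring
  rw [e1, e2, ← sub_div]
  have h6 : 1 - Qap q 2 2 0 n / Q263.CS.Qs q 2 n =
      (Q263.CS.Qs q 2 n - Qap q 2 2 0 n) / Q263.CS.Qs q 2 n := by
    field_simp
  rw [h6, div_div_div_cancel_right₀ hn0.ne']

/-- **Answer to Q1 (no).**  There is a basic sequence `q` with `q_n → ∞`, fully divergent of
type I, for which the set of `q`-normal numbers that lie in no `N^{AP}_k(q;k,r)` (`k ≥ 2`,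
`0 ≤ r ≤ k-1`) has Hausdorff dimension `0`. -/
theorem result : ∃ q : ℕ → ℕ, (∀ n, 2 ≤ q n) ∧ Tendsto q atTop atTop ∧ FullyDivergentI q ∧
    dimH (ExceptionalSet q) = 0 := by
  refine ⟨q, two_le_q, tendsto_q, fun k m r hk hm hr => divergent hk hm hr, ?_⟩
  have h1 : dimH (Z q Pr hug) = 0 :=
    dimH_Z rfl (fun n => Pr_succ n) (fun n => by have := two_le_q (n + 1); omega)
      (fun n hh => q_big hh)
  have h2 : ExceptionalSet q ⊆ Z q Pr hug := by
    rintro x ⟨E, hE, hnorm, hap⟩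
    by_contra hx
    exact hap 2 le_rfl 1 (by omega) (apNormal hE hx (hnorm 2 (by omega)))
  have h3 := dimH_mono h2
  rw [h1] at h3
  exact le_antisymm h3 (zero_le)

end Pool.Agent.Results.MP_ab119d_nt.DimensionZero
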